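import Pool.Agent.Helper54.Wav.Defs

/-!
Module W6: smooth periodic orthonormalization.
-/

set_option autoImplicit false

open MeasureTheory Matrix Module
open scoped ComplexConjugate ContDiff FourierTransform SchwartzMap InnerProductSpace

namespace Pool.Agent.Helper7.Wav

open Pool.Agent.Helper54.Wav InnerProductSpace

private theorem contDiff_gramSchmidt {n : ℕ} {V : Type*} [NormedAddCommGroup V]
    [InnerProductSpace ℂ V] (p : ℕ)
    (s : Fin p → (Fin n → ℝ) → V) (hs : ∀ i, ContDiff ℝ ∞ (s i))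
    (hon : ∀ ξ, LinearIndependent ℂ (fun i => s i ξ)) (i : Fin p) :
    ContDiff ℝ ∞ (fun ξ => gramSchmidt ℂ (fun j => s j ξ) i) := by
  induction i using WellFoundedLT.induction with
  | ind i ih =>
    have h1 : (fun ξ => gramSchmidt ℂ (fun j => s j ξ) i) = fun ξ => s i ξ -
        ∑ j ∈ Finset.Iio i, ((⟪gramSchmidt ℂ (fun j => s j ξ) j, s i ξ⟫_ℂ *
          (((‖gramSchmidt ℂ (fun j => s j ξ) j‖ ^ 2)⁻¹ : ℝ) : ℂ)) •
            gramSchmidt ℂ (fun j => s j ξ) j) := by
      funext ξ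
      have := gramSchmidt_def'' ℂ (fun j => s j ξ) i
      rw [eq_sub_iff_add_eq]
      conv_rhs => rw [this]
      congr 1
      refine Finset.sum_congr rfl fun j _ => ?_
      congr 1
      rw [div_eq_mul_inv]
      congr 1
      simp
    rw [h1]
    refine (hs i).sub (ContDiff.sum fun j hj => ?_)
    have hj' := ih j (Finset.mem_Iio.1 hj)
    refine ContDiff.smul (ContDiff.mul (hj'.inner ℂ (hs i)) ?_) hj'
    refine Complex.ofRealCLM.contDiff.comp (ContDiff.inv (hj'.norm_sq ℂ) fun ξ => ?_)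
    have : gramSchmidt ℂ (fun j => s j ξ) j ≠ 0 := gramSchmidt_ne_zero j (hon ξ)
    exact pow_ne_zero 2 (norm_ne_zero_iff.2 this)

theorem orthonormalize {n : ℕ} {V : Type*} [NormedAddCommGroup V] [InnerProductSpace ℂ V]
    [FiniteDimensional ℂ V] (p : ℕ)
    (s : Fin p → (Fin n → ℝ) → V) (hs : ∀ i, ContDiff ℝ ∞ (s i)) (hper : ∀ i, Per (s i))
    (hon : ∀ ξ, LinearIndependent ℂ (fun i => s i ξ)) :
    ∃ t : Fin p → (Fin n → ℝ) → V, (∀ i, ContDiff ℝ ∞ (t i)) ∧ (∀ i, Per (t i)) ∧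
      (∀ ξ, Orthonormal ℂ (fun i => t i ξ)) ∧
      ∀ ξ, Submodule.span ℂ (Set.range fun i => t i ξ) =
        Submodule.span ℂ (Set.range fun i => s i ξ) := by
  refine ⟨fun i ξ => gramSchmidtNormed ℂ (fun j => s j ξ) i, ?_, ?_, ?_, ?_⟩
  · intro i
    have h := contDiff_gramSchmidt p s hs hon i
    have h0 : ∀ ξ, gramSchmidt ℂ (fun j => s j ξ) i ≠ 0 := fun ξ =>
      gramSchmidt_ne_zero i (hon ξ)
    have h1 : (fun ξ => gramSchmidtNormed ℂ (fun j => s j ξ) i) = fun ξ =>
        (((‖gramSchmidt ℂ (fun j => s j ξ) i‖⁻¹ : ℝ)) : ℂ) •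
          gramSchmidt ℂ (fun j => s j ξ) i := by
      funext ξ
      simp [gramSchmidtNormed]
    change ContDiff ℝ ∞ (fun ξ => gramSchmidtNormed ℂ (fun j => s j ξ) i)
    rw [h1]
    refine ContDiff.smul ?_ h
    exact Complex.ofRealCLM.contDiff.comp
      (ContDiff.inv (h.norm ℂ h0) fun ξ => norm_ne_zero_iff.2 (h0 ξ))
  · intro i ξ m
    have : (fun j => s j (ξ + zv m)) = fun j => s j ξ := by
      funext j
      exact hper j ξ m
    simp only [this]
  · intro ξ
    exact gramSchmidtNormed_orthonormal (hon ξ)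
  · intro ξ
    change Submodule.span ℂ (Set.range (gramSchmidtNormed ℂ (fun j => s j ξ))) = _
    rw [span_gramSchmidtNormed_range, span_gramSchmidt]

end Pool.Agent.Helper7.Wav
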